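import Pool.Agent.H51.ERA.Stmts
import Pool.Agent.H51.ERA.Base

/-!
MP_e0047e_lc, board `era`: module PRC (permutation invariance, terminals, nonempty yields).
-/

set_option autoImplicit false

namespace Pool.Agent.H93.ERA

open Pool.Agent.H51.ERA

theorem exists_map_of_forall {α β : Type} (f : α → β) (B : List β) (h : ∀ x ∈ B, ∃ a, x = f a) :
    ∃ w : List α, B = w.map f := by
  induction B with
  | nil => exact ⟨[], rfl⟩
  | cons x B ih =>
    obtain ⟨a, ha⟩ := h x List.mem_cons_self
    obtain ⟨w, hw⟩ := ih (fun y hy => h y (List.mem_cons_of_mem _ hy))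
    exact ⟨a :: w, by rw [ha, hw]; rfl⟩

theorem PRC_thm : PRCStmt := by
  intro T N Λ lb rs K hP
  induction hP with
  | nil w =>
    refine ⟨?_, ?_, ?_⟩
    · intro B hB
      obtain ⟨w', hw'⟩ := exists_map_of_forall
        (fun a : T => ((Symbol.terminal a : Symbol T N), [a])) B (fun x hx => by
          have hx' := hB.mem_iff.1 hx
          obtain ⟨a, -, ha⟩ := List.mem_map.1 hx'
          exact ⟨a, ha.symm⟩)
      rw [hw']
      exact Par.nil w'
    · intro a y hy
      obtain ⟨c, -, hc⟩ := List.mem_map.1 hy
      simp only [Prod.mk.injEq, Symbol.terminal.injEq] at hc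
      rw [← hc.1, ← hc.2]
    · intro _ x hx
      obtain ⟨c, -, hc⟩ := List.mem_map.1 hx
      rw [← hc]
      simp
  | cons r rs K₁ Ks K₂ hKs hpar ih =>
    obtain ⟨ih1, ih2, ih3⟩ := ih
    refine ⟨?_, ?_, ?_⟩
    · intro B hB
      have hmem : (Symbol.nonterminal (lb r).input, Ks.flatMap Prod.snd) ∈ B := by
        rw [hB.mem_iff]
        simp
      obtain ⟨B1, B2, hB12⟩ := List.append_of_mem hmem
      have hp : (B1 ++ B2).Perm (K₁ ++ K₂) := by
        have h1 : (B1 ++ (Symbol.nonterminal (lb r).input, Ks.flatMap Prod.snd) :: B2).Perm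
            ((Symbol.nonterminal (lb r).input, Ks.flatMap Prod.snd) :: (B1 ++ B2)) :=
          List.perm_middle
        have h2 : (K₁ ++ [(Symbol.nonterminal (lb r).input, Ks.flatMap Prod.snd)] ++ K₂).Perm
            ((Symbol.nonterminal (lb r).input, Ks.flatMap Prod.snd) :: (K₁ ++ K₂)) := by
          rw [List.append_assoc, List.singleton_append]
          exact List.perm_middle
        rw [hB12] at hB
        exact (h1.symm.trans (hB.trans h2)).cons_inv
      have hq : (B1 ++ Ks ++ B2).Perm (K₁ ++ Ks ++ K₂) := by
        have h1 : (B1 ++ Ks ++ B2).Perm (Ks ++ (B1 ++ B2)) := by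
          rw [← List.append_assoc]
          exact (List.perm_append_comm).append_right B2
        have h2 : (K₁ ++ Ks ++ K₂).Perm (Ks ++ (K₁ ++ K₂)) := by
          rw [← List.append_assoc]
          exact (List.perm_append_comm).append_right K₂
        exact h1.trans ((hp.append_left Ks).trans h2.symm)
      have h3 := Par.cons r rs B1 Ks B2 hKs (ih1 _ hq)
      rw [hB12]
      rw [List.append_assoc, List.singleton_append] at h3
      exact h3
    · intro a y hy
      refine ih2 a y ?_
      simp only [List.mem_append, List.mem_singleton, Prod.mk.injEq, reduceCtorEq, false_and,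
        or_false] at hy
      simp only [List.mem_append]
      rcases hy with h | h
      · exact Or.inl (Or.inl h)
      · exact Or.inr h
    · intro hout x hx
      have hih := ih3 hout
      simp only [List.mem_append, List.mem_singleton] at hx
      rcases hx with (h | h) | h
      · exact hih x (by simp [h])
      · rw [h]
        have hne : Ks ≠ [] := by
          intro h0
          rw [h0] at hKs
          exact hout r hKs.symm
        obtain ⟨k, Ks', hk⟩ := List.exists_cons_of_ne_nil hne
        have hkn := hih k (by rw [hk]; simp)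
        intro h0
        simp only [hk, List.flatMap_cons, List.append_eq_nil_iff] at h0
        exact hkn h0.1
      · exact hih x (by simp [h])

end Pool.Agent.H93.ERA
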