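import Pool.Agent.H51.ERA.Stmts
import Pool.Agent.H51.ERA.Base

/-!
MP_e0047e_lc, board `era`: module SW (swapping two entries with the same symbol).
-/

set_option autoImplicit false

namespace Pool.Agent.H93.ERA

open Pool.Agent.H51.ERA

theorem split_at {α : Type} {L : List α} {i : ℕ} {a : α} (h : L[i]? = some a) :
    ∃ L1 L2 : List α, L = L1 ++ a :: L2 ∧ L1.length = i := by
  obtain ⟨hi, rfl⟩ := List.getElem?_eq_some_iff.1 h
  refine ⟨L.take i, L.drop (i + 1), ?_, ?_⟩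
  · conv_lhs => rw [← List.take_append_drop i L]
    rw [List.drop_eq_getElem_cons hi]
  · simp [Nat.le_of_lt hi]

theorem SW_aux {N Q : Type} {L : List Ltr → Prop} {rho : ℕ} (sys : CutSys N Q L rho)
    (hG : ∀ w, L w → Good w) (q : Q) (K : List (Sg N)) (i j : ℕ) (A : Symbol Ltr N)
    (y y' : List Ltr) (hK : sys.Cut q K) (hij : i < j) (hi : K[i]? = some (A, y))
    (hj : K[j]? = some (A, y')) :
    ∃ σ₀ σ₁ σ, run y σ₀ = some σ ∧ run y' σ₁ = some σ := by
  obtain ⟨K1, K', hK1, hl1⟩ := split_at hi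
  have hj' : K'[j - (i + 1)]? = some (A, y') := by
    rw [hK1] at hj
    rw [List.getElem?_append_right (by omega)] at hj
    have e : j - K1.length = (j - (i + 1)) + 1 := by omega
    rw [e, List.getElem?_cons_succ] at hj
    exact hj
  obtain ⟨K2, K3, hK2, -⟩ := split_at hj'
  have hKe : K = K1 ++ (A, y) :: (K2 ++ (A, y') :: K3) := by rw [hK1, hK2]
  -- the swapped list
  have hperm : (K1 ++ (A, y') :: (K2 ++ (A, y) :: K3)).Perm K := by
    rw [hKe]
    refine List.Perm.append_left K1 ?_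
    have h1 : ((A, y') :: (K2 ++ (A, y) :: K3)).Perm ((A, y') :: (A, y) :: (K2 ++ K3)) :=
      (List.perm_middle (l₁ := K2) (l₂ := K3) (a := (A, y))).cons _
    have h2 : ((A, y) :: (K2 ++ (A, y') :: K3)).Perm ((A, y) :: (A, y') :: (K2 ++ K3)) :=
      (List.perm_middle (l₁ := K2) (l₂ := K3) (a := (A, y'))).cons _
    exact h1.trans ((List.Perm.swap _ _ _).trans h2.symm)
  have hfst : (K1 ++ (A, y') :: (K2 ++ (A, y) :: K3)).map Prod.fst = K.map Prod.fst := by
    rw [hKe]; simp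
  have g1 : run (yl K) [] = some [] := (hG _ (sys.hyb q K K K hK hK (List.Perm.refl _) rfl)).bal
  have g2 : run (yl (K1 ++ (A, y') :: (K2 ++ (A, y) :: K3))) [] = some [] :=
    (hG _ (sys.hyb q K K _ hK hK hperm hfst)).bal
  rw [hKe] at g1
  have e1 : yl (K1 ++ (A, y) :: (K2 ++ (A, y') :: K3)) = (yl K1 ++ (y ++ yl K2)) ++ (y' ++ yl K3) := by
    simp [yl_append, yl_cons, List.append_assoc]
  have e2 : yl (K1 ++ (A, y') :: (K2 ++ (A, y) :: K3)) = (yl K1 ++ (y' ++ yl K2)) ++ (y ++ yl K3) := by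
    simp [yl_append, yl_cons, List.append_assoc]
  rw [e1] at g1
  rw [e2] at g2
  obtain ⟨s1, -, h1⟩ := run_split g1
  obtain ⟨s2, h1a, h1b⟩ := run_split h1
  obtain ⟨t1, -, h2⟩ := run_split g2
  obtain ⟨t2, h2a, h2b⟩ := run_split h2
  have he := run_inj h1b h2b
  subst he
  exact ⟨t1, s1, s2, h2a, h1a⟩

theorem SW_thm : SWStmt := by
  intro N Q L rho sys hG q K i j A y y' hK hij hi hj
  rcases Nat.lt_or_ge i j with h | h
  · exact SW_aux sys hG q K i j A y y' hK h hi hj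
  · obtain ⟨σ₀, σ₁, σ, h1, h2⟩ := SW_aux sys hG q K j i A y' y hK (by omega) hj hi
    exact ⟨σ₁, σ₀, σ, h2, h1⟩

end Pool.Agent.H93.ERA
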